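import Mathlib

/-!
# MP_1f55c7_lc, Q1: the diamond-free fragments of `CK ⊕ N_◇ ⊕ wCD` and
`CK ⊕ N_◇ ⊕ wCD ⊕ C_◇` differ

The formula `((□(p∨q) → (¬□¬p ∨ ¬□¬q)) → □(p∨q)) → □(p∨q)` is a theorem of `L₂` and not of `L₁`.
For `L₁` we read `◇φ` as `¬□¬φ` in a birelational model with seven worlds.
-/

namespace Pool.Agent.Results.MP_1f55c7_lc.BoxFragmentsDiffer

/-- Formulas of intuitionistic modal logic. -/
inductive Fml : Type
  | var : ℕ → Fml
  | bot : Fml
  | and : Fml → Fml → Fml
  | or : Fml → Fml → Fml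
  | imp : Fml → Fml → Fml
  | box : Fml → Fml
  | dia : Fml → Fml

namespace Fml

/-- `¬φ := φ → ⊥`. -/
def neg (φ : Fml) : Fml := imp φ bot

/-- Uniform substitution. -/
def subst (σ : ℕ → Fml) : Fml → Fml
  | var n => σ n
  | bot => bot
  | and φ ψ => and (subst σ φ) (subst σ ψ)
  | or φ ψ => or (subst σ φ) (subst σ ψ)
  | imp φ ψ => imp (subst σ φ) (subst σ ψ)
  | box φ => box (subst σ φ)
  | dia φ => dia (subst σ φ)

/-- The formula contains no diamond. -/
def DiamondFree : Fml → Prop
  | var _ => True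
  | bot => True
  | and φ ψ => DiamondFree φ ∧ DiamondFree ψ
  | or φ ψ => DiamondFree φ ∧ DiamondFree ψ
  | imp φ ψ => DiamondFree φ ∧ DiamondFree ψ
  | box φ => DiamondFree φ
  | dia _ => False

end Fml

open Fml

/-- `CK_□`: intuitionistic propositional logic (a Hilbert system, all axioms as schemes) with
`K_□`, modus ponens and necessitation. -/
inductive CKBox : Fml → Prop
  | k (φ ψ : Fml) : CKBox (imp φ (imp ψ φ))
  | s (φ ψ χ : Fml) : CKBox (imp (imp φ (imp ψ χ)) (imp (imp φ ψ) (imp φ χ)))
  | andL (φ ψ : Fml) : CKBox (imp (and φ ψ) φ)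
  | andR (φ ψ : Fml) : CKBox (imp (and φ ψ) ψ)
  | andI (φ ψ : Fml) : CKBox (imp φ (imp ψ (and φ ψ)))
  | orL (φ ψ : Fml) : CKBox (imp φ (or φ ψ))
  | orR (φ ψ : Fml) : CKBox (imp ψ (or φ ψ))
  | orE (φ ψ χ : Fml) : CKBox (imp (imp φ χ) (imp (imp ψ χ) (imp (or φ ψ) χ)))
  | botE (φ : Fml) : CKBox (imp bot φ)
  | kBox (φ ψ : Fml) : CKBox (imp (box (imp φ ψ)) (imp (box φ) (box ψ)))
  | mp {φ ψ : Fml} : CKBox (imp φ ψ) → CKBox φ → CKBox ψ
  | nec {φ : Fml} : CKBox φ → CKBox (box φ)

/-- `L ⊕ a`: the least set of formulas which contains `L` and all substitution instances of `a`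
and is closed under modus ponens, necessitation and uniform substitution. -/
inductive Ext (L : Fml → Prop) (a : Fml) : Fml → Prop
  | base {φ : Fml} : L φ → Ext L a φ
  | ax (σ : ℕ → Fml) : Ext L a (subst σ a)
  | mp {φ ψ : Fml} : Ext L a (imp φ ψ) → Ext L a φ → Ext L a ψ
  | nec {φ : Fml} : Ext L a φ → Ext L a (box φ)
  | us {φ : Fml} (σ : ℕ → Fml) : Ext L a φ → Ext L a (subst σ φ)

/-- `K_◇ : □(p → q) → (◇p → ◇q)`. -/
def KDia : Fml :=
  imp (box (imp (var 0) (var 1))) (imp (dia (var 0)) (dia (var 1)))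

/-- `N_◇ : ◇⊥ → ⊥`. -/
def NDia : Fml := imp (dia bot) bot

/-- `C_◇ : ◇(p ∨ q) → ◇p ∨ ◇q`. -/
def CDia : Fml := imp (dia (or (var 0) (var 1))) (or (dia (var 0)) (dia (var 1)))

/-- Weak constant domain `wCD : □(p ∨ q) → ((◇p → □q) → □q)`. -/
def WCD : Fml :=
  imp (box (or (var 0) (var 1)))
    (imp (imp (dia (var 0)) (box (var 1))) (box (var 1)))

/-- `CK = CK_□ ⊕ K_◇`. -/
def CK : Fml → Prop := Ext CKBox KDia

/-- `L₁ = CK ⊕ N_◇ ⊕ wCD`. -/
def L1 : Fml → Prop := Ext (Ext CK NDia) WCD

/-- `L₂ = L₁ ⊕ C_◇`. -/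
def L2 : Fml → Prop := Ext L1 CDia

/-- The separating formula
`((□(p∨q) → (¬□¬p ∨ ¬□¬q)) → □(p∨q)) → □(p∨q)`. -/
def Sep : Fml :=
  imp (imp (imp (box (or (var 0) (var 1)))
      (or (neg (box (neg (var 0)))) (neg (box (neg (var 1))))))
    (box (or (var 0) (var 1)))) (box (or (var 0) (var 1)))

/-! ### The seven-world model -/

/-- Worlds. -/
inductive W : Type
  | a | b | c1 | c2 | y0 | y1 | y2
  deriving DecidableEq

/-- The intuitionistic order: `a < b < c1, c2`, `y0 < y1, y2`. -/
def le : W → W → Bool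
  | .a, .a => true
  | .a, .b => true
  | .a, .c1 => true
  | .a, .c2 => true
  | .b, .b => true
  | .b, .c1 => true
  | .b, .c2 => true
  | .c1, .c1 => true
  | .c2, .c2 => true
  | .y0, .y0 => true
  | .y0, .y1 => true
  | .y0, .y2 => true
  | .y1, .y1 => true
  | .y2, .y2 => true
  | _, _ => false

/-- The modal relation. -/
def R : W → W → Bool
  | .a, .y0 => true
  | .a, .y1 => true
  | .a, .y2 => true
  | .b, .y1 => true
  | .b, .y2 => true
  | .c1, .y1 => true
  | .c2, .y2 => true
  | _, _ => false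

theorem le_refl' (w : W) : le w w = true := by cases w <;> rfl

theorem le_trans' : ∀ {u v w : W}, le u v = true → le v w = true → le u w = true := by
  intro u v w
  cases u <;> cases v <;> cases w <;> decide

theorem R_mono : ∀ {u v w : W}, le u v = true → R v w = true → R u w = true := by
  intro u v w
  cases u <;> cases v <;> cases w <;> decide

/-- Forcing, with `◇` read as `¬□¬`. -/
def Forces (V : ℕ → W → Prop) : W → Fml → Prop
  | w, .var n => V n w
  | _, .bot => False
  | w, .and φ ψ => Forces V w φ ∧ Forces V w ψ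
  | w, .or φ ψ => Forces V w φ ∨ Forces V w ψ
  | w, .imp φ ψ => ∀ v, le w v = true → Forces V v φ → Forces V v ψ
  | w, .box φ => ∀ v, R w v = true → Forces V v φ
  | w, .dia φ => ∀ v, le w v = true →
      ¬ (∀ u, R v u = true → ∀ t, le u t = true → ¬ Forces V t φ)

/-- Persistent valuations. -/
def Pers (V : ℕ → W → Prop) : Prop := ∀ n w v, le w v = true → V n w → V n v

theorem forces_mono {V : ℕ → W → Prop} (hV : Pers V) :
    ∀ (φ : Fml) {w v : W}, le w v = true → Forces V w φ → Forces V v φ := by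
  intro φ
  induction φ with
  | var n => intro w v h hw; exact hV n w v h hw
  | bot => intro w v h hw; exact hw
  | and φ ψ ih1 ih2 => intro w v h hw; exact ⟨ih1 h hw.1, ih2 h hw.2⟩
  | or φ ψ ih1 ih2 =>
    intro w v h hw
    rcases hw with hw | hw
    · exact Or.inl (ih1 h hw)
    · exact Or.inr (ih2 h hw)
  | imp φ ψ ih1 ih2 =>
    intro w v h hw u hu hφ
    exact hw u (le_trans' h hu) hφ
  | box φ ih => intro w v h hw u hu; exact hw u (R_mono h hu)
  | dia φ ih => intro w v h hw u hu; exact hw u (le_trans' h hu)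

theorem forces_subst (V : ℕ → W → Prop) (σ : ℕ → Fml) :
    ∀ (φ : Fml) (w : W), Forces V w (subst σ φ) ↔ Forces (fun n w => Forces V w (σ n)) w φ := by
  intro φ
  induction φ with
  | var n => intro w; exact Iff.rfl
  | bot => intro w; exact Iff.rfl
  | and φ ψ ih1 ih2 => intro w; simp only [subst, Forces, ih1, ih2]
  | or φ ψ ih1 ih2 => intro w; simp only [subst, Forces, ih1, ih2]
  | imp φ ψ ih1 ih2 => intro w; simp only [subst, Forces, ih1, ih2]
  | box φ ih => intro w; simp only [subst, Forces, ih]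
  | dia φ ih => intro w; simp only [subst, Forces, ih]

/-- Validity in the model. -/
def Valid (φ : Fml) : Prop := ∀ V : ℕ → W → Prop, Pers V → ∀ w, Forces V w φ

theorem valid_subst {φ : Fml} (σ : ℕ → Fml) (h : Valid φ) : Valid (subst σ φ) := by
  intro V hV w
  rw [forces_subst]
  exact h _ (fun n w v hwv hw => forces_mono hV (σ n) hwv hw) w

theorem valid_ext {L : Fml → Prop} {a : Fml} (hL : ∀ φ, L φ → Valid φ) (ha : Valid a) :
    ∀ φ, Ext L a φ → Valid φ := by
  intro φ h
  induction h with
  | base h => exact hL _ h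
  | ax σ => exact valid_subst σ ha
  | mp _ _ ih1 ih2 =>
    intro V hV w
    exact ih1 V hV w w (le_refl' w) (ih2 V hV w)
  | nec _ ih => intro V hV w v _; exact ih V hV v
  | us σ _ ih => exact valid_subst σ ih

theorem valid_ckbox : ∀ φ, CKBox φ → Valid φ := by
  intro φ h
  induction h with
  | k φ ψ => intro V hV w v _ hφ u hu _; exact forces_mono hV φ hu hφ
  | s φ ψ χ =>
    intro V hV w v _ h1 u hu h2 t ht h3
    exact h1 t (le_trans' hu ht) h3 t (le_refl' t) (h2 t ht h3)
  | andL φ ψ => intro V hV w v _ h; exact h.1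
  | andR φ ψ => intro V hV w v _ h; exact h.2
  | andI φ ψ => intro V hV w v _ h u hu h'; exact ⟨forces_mono hV φ hu h, h'⟩
  | orL φ ψ => intro V hV w v _ h; exact Or.inl h
  | orR φ ψ => intro V hV w v _ h; exact Or.inr h
  | orE φ ψ χ =>
    intro V hV w v _ h1 u hu h2 t ht h3
    rcases h3 with h3 | h3
    · exact h1 t (le_trans' hu ht) h3
    · exact h2 t ht h3
  | botE φ => intro V hV w v _ h; exact h.elim
  | kBox φ ψ =>
    intro V hV w v _ h1 u hu h2 t ht
    exact h1 t (R_mono hu ht) t (le_refl' t) (h2 t ht)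
  | mp _ _ ih1 ih2 =>
    intro V hV w
    exact ih1 V hV w w (le_refl' w) (ih2 V hV w)
  | nec _ ih => intro V hV w v _; exact ih V hV v

theorem valid_KDia : Valid KDia := by
  intro V hV w v _ h1 u hu h2 t ht h3
  refine h2 t ht ?_
  intro s hs r hr h4
  exact h3 s hs r hr (h1 s (R_mono (le_trans' hu ht) hs) r hr h4)

theorem valid_NDia : Valid NDia := by
  intro V hV w v _ h1
  exact h1 v (le_refl' v) (fun s _ r _ h => h)

theorem valid_WCD : Valid WCD := by
  intro V hV w v _ h1 u hu h2
  -- `h1 : v ⊩ □(p ∨ q)`, `h2 : u ⊩ ◇p → □q`; show `u ⊩ □q`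
  have h1' : ∀ s, R u s = true → V 0 s ∨ V 1 s := fun s hs => h1 s (R_mono hu hs)
  -- the two top worlds
  have key1 : le u .c1 = true → V 1 .y1 := by
    intro huc
    have hr : R u .y1 = true := R_mono huc rfl
    rcases h1' .y1 hr with h | h
    · refine h2 .c1 huc ?_ .y1 rfl
      intro r hcr hbad
      have : r = .c1 := by
        cases r <;> first | rfl | exact absurd hcr (by decide)
      subst this
      exact hbad .y1 rfl .y1 rfl h
    · exact h
  have key2 : le u .c2 = true → V 1 .y2 := by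
    intro huc
    have hr : R u .y2 = true := R_mono huc rfl
    rcases h1' .y2 hr with h | h
    · refine h2 .c2 huc ?_ .y2 rfl
      intro r hcr hbad
      have : r = .c2 := by
        cases r <;> first | rfl | exact absurd hcr (by decide)
      subst this
      exact hbad .y2 rfl .y2 rfl h
    · exact h
  intro s hs
  cases u with
  | a =>
    cases s with
    | y0 =>
      rcases h1' .y0 rfl with h | h
      · refine h2 .a rfl ?_ .y0 rfl
        have hy1 : V 0 .y1 := hV 0 .y0 .y1 rfl h
        have hy2 : V 0 .y2 := hV 0 .y0 .y2 rfl h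
        intro r hr hbad
        cases r with
        | a => exact hbad .y0 rfl .y0 rfl h
        | b => exact hbad .y1 rfl .y1 rfl hy1
        | c1 => exact hbad .y1 rfl .y1 rfl hy1
        | c2 => exact hbad .y2 rfl .y2 rfl hy2
        | y0 => exact absurd hr (by decide)
        | y1 => exact absurd hr (by decide)
        | y2 => exact absurd hr (by decide)
      · exact h
    | y1 => exact key1 rfl
    | y2 => exact key2 rfl
    | a => exact absurd hs (by decide)
    | b => exact absurd hs (by decide)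
    | c1 => exact absurd hs (by decide)
    | c2 => exact absurd hs (by decide)
  | b =>
    cases s with
    | y1 => exact key1 rfl
    | y2 => exact key2 rfl
    | y0 => exact absurd hs (by decide)
    | a => exact absurd hs (by decide)
    | b => exact absurd hs (by decide)
    | c1 => exact absurd hs (by decide)
    | c2 => exact absurd hs (by decide)
  | c1 =>
    cases s with
    | y1 => exact key1 rfl
    | y2 => exact absurd hs (by decide)
    | y0 => exact absurd hs (by decide)
    | a => exact absurd hs (by decide)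
    | b => exact absurd hs (by decide)
    | c1 => exact absurd hs (by decide)
    | c2 => exact absurd hs (by decide)
  | c2 =>
    cases s with
    | y2 => exact key2 rfl
    | y1 => exact absurd hs (by decide)
    | y0 => exact absurd hs (by decide)
    | a => exact absurd hs (by decide)
    | b => exact absurd hs (by decide)
    | c1 => exact absurd hs (by decide)
    | c2 => exact absurd hs (by decide)
  | y0 => cases s <;> exact absurd hs (by decide)
  | y1 => cases s <;> exact absurd hs (by decide)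
  | y2 => cases s <;> exact absurd hs (by decide)

theorem valid_L1 : ∀ φ, L1 φ → Valid φ :=
  valid_ext (valid_ext (valid_ext valid_ckbox valid_KDia) valid_NDia) valid_WCD

/-- The valuation refuting `Sep` at `a`: `p` holds only at `y1`, `q` only at `y2`. -/
def V0 : ℕ → W → Prop
  | 0, .y1 => True
  | 1, .y2 => True
  | _, _ => False

theorem pers_V0 : Pers V0 := by
  intro n w v h hw
  match n, w, v with
  | 0, .y1, .y1 => trivial
  | 1, .y2, .y2 => trivial
  | 0, .y1, .y2 => exact absurd h (by decide)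
  | 1, .y2, .y1 => exact absurd h (by decide)
  | 0, .y1, .y0 => exact absurd h (by decide)
  | 0, .y1, .a => exact absurd h (by decide)
  | 0, .y1, .b => exact absurd h (by decide)
  | 0, .y1, .c1 => exact absurd h (by decide)
  | 0, .y1, .c2 => exact absurd h (by decide)
  | 1, .y2, .y0 => exact absurd h (by decide)
  | 1, .y2, .a => exact absurd h (by decide)
  | 1, .y2, .b => exact absurd h (by decide)
  | 1, .y2, .c1 => exact absurd h (by decide)
  | 1, .y2, .c2 => exact absurd h (by decide)
  | 0, .a, _ => exact hw.elim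
  | 0, .b, _ => exact hw.elim
  | 0, .c1, _ => exact hw.elim
  | 0, .c2, _ => exact hw.elim
  | 0, .y0, _ => exact hw.elim
  | 0, .y2, _ => exact hw.elim
  | 1, .a, _ => exact hw.elim
  | 1, .b, _ => exact hw.elim
  | 1, .c1, _ => exact hw.elim
  | 1, .c2, _ => exact hw.elim
  | 1, .y0, _ => exact hw.elim
  | 1, .y1, _ => exact hw.elim
  | (n + 2), _, _ => exact hw.elim

theorem not_valid_Sep : ¬ Valid Sep := by
  intro hval
  have h := hval V0 pers_V0 .a .a rfl
  -- it suffices that `a ⊩ E → □(p ∨ q)`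
  have hbox : Forces V0 .a (box (or (var 0) (var 1))) := by
    apply h
    intro v hv hE u hu
    -- `hE : v ⊩ □(p ∨ q) → (¬□¬p ∨ ¬□¬q)`
    have hb : ∀ x : W, x = .b → le v x = true → False := by
      intro x hx hvb
      subst hx
      have h1 : Forces V0 .b (box (or (var 0) (var 1))) := by
        intro s hs
        cases s with
        | y1 => exact Or.inl trivial
        | y2 => exact Or.inr trivial
        | y0 => exact absurd hs (by decide)
        | a => exact absurd hs (by decide)
        | b => exact absurd hs (by decide)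
        | c1 => exact absurd hs (by decide)
        | c2 => exact absurd hs (by decide)
      rcases hE .b hvb h1 with h2 | h2
      · refine h2 .c2 rfl ?_
        intro s hs t ht h3
        have hs' : s = .y2 := by
          cases s <;> first | rfl | exact absurd hs (by decide)
        subst hs'
        have ht' : t = .y2 := by
          cases t <;> first | rfl | exact absurd ht (by decide)
        subst ht'
        exact h3
      · refine h2 .c1 rfl ?_
        intro s hs t ht h3
        have hs' : s = .y1 := by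
          cases s <;> first | rfl | exact absurd hs (by decide)
        subst hs'
        have ht' : t = .y1 := by
          cases t <;> first | rfl | exact absurd ht (by decide)
        subst ht'
        exact h3
    cases v with
    | a => exact (hb .b rfl rfl).elim
    | b => exact (hb .b rfl rfl).elim
    | c1 =>
      cases u with
      | y1 => exact Or.inl trivial
      | y2 => exact absurd hu (by decide)
      | y0 => exact absurd hu (by decide)
      | a => exact absurd hu (by decide)
      | b => exact absurd hu (by decide)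
      | c1 => exact absurd hu (by decide)
      | c2 => exact absurd hu (by decide)
    | c2 =>
      cases u with
      | y2 => exact Or.inr trivial
      | y1 => exact absurd hu (by decide)
      | y0 => exact absurd hu (by decide)
      | a => exact absurd hu (by decide)
      | b => exact absurd hu (by decide)
      | c1 => exact absurd hu (by decide)
      | c2 => exact absurd hu (by decide)
    | y0 => exact absurd hv (by decide)
    | y1 => exact absurd hv (by decide)
    | y2 => exact absurd hv (by decide)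
  rcases hbox .y0 rfl with h3 | h3
  · exact h3
  · exact h3

/-! ### The derivation in `L₂` -/

theorem l2_ck {φ : Fml} (h : CKBox φ) : L2 φ := .base (.base (.base (.base h)))

theorem l2_KDia (φ ψ : Fml) : L2 (imp (box (imp φ ψ)) (imp (dia φ) (dia ψ))) := by
  have : CK (subst (fun n => if n = 0 then φ else ψ) KDia) := .ax _
  exact .base (.base (.base this))

theorem l2_NDia : L2 (imp (dia bot) bot) := by
  have : Ext CK NDia (subst var NDia) := .ax _
  exact .base (.base this)

theorem l2_WCD (φ ψ : Fml) :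
    L2 (imp (box (or φ ψ)) (imp (imp (dia φ) (box ψ)) (box ψ))) := by
  have : L1 (subst (fun n => if n = 0 then φ else ψ) WCD) := .ax _
  exact .base this

theorem l2_CDia (φ ψ : Fml) : L2 (imp (dia (or φ ψ)) (or (dia φ) (dia ψ))) := by
  have : L2 (subst (fun n => if n = 0 then φ else ψ) CDia) := .ax _
  exact this

/-- Theories over `L₂`. -/
structure Th (T : Fml → Prop) : Prop where
  thm : ∀ φ, L2 φ → T φ
  mp : ∀ φ ψ, T (imp φ ψ) → T φ → T ψ

theorem th_L2 : Th L2 := ⟨fun _ h => h, fun _ _ h1 h2 => .mp h1 h2⟩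

theorem th_imp {T : Fml → Prop} (hT : Th T) {φ ψ : Fml}
    (h : ∀ T' : Fml → Prop, Th T' → (∀ χ, T χ → T' χ) → T' φ → T' ψ) : T (imp φ ψ) := by
  refine h (fun χ => T (imp φ χ)) ⟨?_, ?_⟩ ?_ ?_
  · intro χ hχ
    exact hT.mp _ _ (hT.thm _ (l2_ck (.k χ φ))) (hT.thm _ hχ)
  · intro χ ξ h1 h2
    exact hT.mp _ _ (hT.mp _ _ (hT.thm _ (l2_ck (.s φ χ ξ))) h1) h2
  · intro χ hχ
    exact hT.mp _ _ (hT.thm _ (l2_ck (.k χ φ))) hχ
  · exact hT.mp _ _ (hT.mp _ _ (hT.thm _ (l2_ck (.s φ (imp φ φ) φ)))
      (hT.thm _ (l2_ck (.k φ (imp φ φ))))) (hT.thm _ (l2_ck (.k φ φ)))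

/-- Every formula `◇x → ¬□¬x` is a theorem. -/
theorem l2_dia_neg (x : Fml) : L2 (imp (dia x) (neg (box (neg x)))) := by
  refine th_imp th_L2 fun T hT _ h1 => th_imp hT fun T' hT' hsub h2 => ?_
  have h3 := hT'.mp _ _ (hT'.mp _ _ (hT'.thm _ (l2_KDia x bot)) h2) (hsub _ h1)
  exact hT'.mp _ _ (hT'.thm _ l2_NDia) h3

theorem l2_Sep : L2 Sep := by
  set p : Fml := var 0
  set q : Fml := var 1
  set top : Fml := imp bot bot
  refine th_imp th_L2 fun T hT _ hE => ?_
  have htop : L2 top := l2_ck (.botE bot)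
  have h1 : L2 (box (or top (or p q))) :=
    .nec (.mp (l2_ck (.orL top (or p q))) htop)
  refine hT.mp _ _ (hT.mp _ _ (hT.thm _ (l2_WCD top (or p q))) (hT.thm _ h1)) ?_
  refine th_imp hT fun T' hT' hsub hd => ?_
  refine hT'.mp _ _ (hsub _ hE) ?_
  refine th_imp hT' fun T2 hT2 hsub2 hb => ?_
  have h2 : L2 (box (imp (or p q) (imp top (or p q)))) := .nec (l2_ck (.k (or p q) top))
  have h3 : T2 (box (imp top (or p q))) :=
    hT2.mp _ _ (hT2.mp _ _ (hT2.thm _ (l2_ck (.kBox (or p q) (imp top (or p q)))))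
      (hT2.thm _ h2)) hb
  have h4 : T2 (dia (or p q)) :=
    hT2.mp _ _ (hT2.mp _ _ (hT2.thm _ (l2_KDia top (or p q))) h3) (hsub2 _ hd)
  have h5 : T2 (or (dia p) (dia q)) := hT2.mp _ _ (hT2.thm _ (l2_CDia p q)) h4
  have h6 : T2 (imp (dia p) (or (neg (box (neg p))) (neg (box (neg q))))) :=
    th_imp hT2 fun T3 hT3 _ hp =>
      hT3.mp _ _ (hT3.thm _ (l2_ck (.orL _ _))) (hT3.mp _ _ (hT3.thm _ (l2_dia_neg p)) hp)
  have h7 : T2 (imp (dia q) (or (neg (box (neg p))) (neg (box (neg q))))) :=
    th_imp hT2 fun T3 hT3 _ hp =>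
      hT3.mp _ _ (hT3.thm _ (l2_ck (.orR _ _))) (hT3.mp _ _ (hT3.thm _ (l2_dia_neg q)) hp)
  exact hT2.mp _ _ (hT2.mp _ _ (hT2.mp _ _ (hT2.thm _ (l2_ck (.orE _ _ _))) h6) h7) h5

/-- **Main result.** Some diamond-free formula, namely
`((□(p∨q) → (¬□¬p ∨ ¬□¬q)) → □(p∨q)) → □(p∨q)`, is a theorem of
`L₂ = CK ⊕ N_◇ ⊕ wCD ⊕ C_◇` but not of `L₁ = CK ⊕ N_◇ ⊕ wCD`: the diamond-free fragments of
`L₁` and `L₂` differ. -/
theorem result : (∃ φ : Fml, DiamondFree φ ∧ L2 φ ∧ ¬ L1 φ) ∧
    (DiamondFree Sep ∧ L2 Sep ∧ ¬ L1 Sep) := by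
  have h : DiamondFree Sep ∧ L2 Sep ∧ ¬ L1 Sep := by
    refine ⟨?_, l2_Sep, fun h => not_valid_Sep (valid_L1 _ h)⟩
    simp [Sep, DiamondFree, neg]
  exact ⟨⟨Sep, h⟩, h⟩

end Pool.Agent.Results.MP_1f55c7_lc.BoxFragmentsDiffer
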